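import Pool.Agent.N237.Pen.Geo

set_option autoImplicit false
open Set Filter Topology
open scoped RealInnerProductSpace ContDiff

namespace Pool.Agent.N237.Pen
open Pool.Agent.H800R2

noncomputable section

variable {n : ℕ}

/-- the room in the half plane of the coordinates `s`, `y` -/
def Rg (s y : ℝ) : Prop := phi s y < 0 ∧ 0 < gg s y ∧ 0 < gg s (-y)

lemma mem_Om {e p : Euc n} : p ∈ Om e ↔ Rg (ss e p) (yy e p) := Iff.rfl

lemma vert {e : Euc n} (he : ‖e‖ = 1) (p : Euc n) (a : ℝ)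
    (h : ∀ t ∈ Icc (0 : ℝ) 1, Rg (ss e p) (yy e p + t * a)) : JoinedIn (Om e) p (p + a • e) := by
  apply JoinedIn.of_segment_subset
  intro q hq
  rw [segment_eq_image'] at hq
  obtain ⟨t, ht, rfl⟩ := hq
  have e1 : p + t • (p + a • e - p) = p + (t * a) • e := by
    rw [add_sub_cancel_left, smul_smul]
  change p + t • (p + a • e - p) ∈ Om e
  rw [e1, mem_Om, ss_line, yy_line, yy_self he, ss_self he]
  have e2 : ⟪p, e⟫ = yy e p := real_inner_comm _ _
  rw [e2]
  have := h t ht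
  convert this using 1 <;> ring

/-- the part of `p` orthogonal to the axis -/
def xx (e p : Euc n) : Euc n := p - yy e p • e

lemma yy_xx {e : Euc n} (he : ‖e‖ = 1) (p : Euc n) : yy e (xx e p) = 0 := by
  have : xx e p = p + (-yy e p) • e := by unfold xx; rw [neg_smul]; abel
  rw [this, yy_line, yy_self he]; ring

lemma ss_xx {e : Euc n} (he : ‖e‖ = 1) (p : Euc n) : ss e (xx e p) = ss e p := by
  have : xx e p = p + (-yy e p) • e := by unfold xx; rw [neg_smul]; abel
  rw [this, ss_line, yy_self he, ss_self he]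
  have e2 : ⟪p, e⟫ = yy e p := real_inner_comm _ _
  rw [e2]; ring

lemma inner_xx {e : Euc n} (p : Euc n) : ⟪p, xx e p⟫ = ss e p := by
  unfold xx
  rw [inner_sub_right, inner_smul_right, real_inner_self_eq_norm_sq]
  have e2 : ⟪p, e⟫ = yy e p := real_inner_comm _ _
  rw [e2]; unfold ss; ring

lemma ss_add_xx {e : Euc n} (he : ‖e‖ = 1) (p : Euc n) (c : ℝ) :
    ss e (p + c • xx e p) = (1 + c) ^ 2 * ss e p := by
  rw [ss_line, inner_xx, yy_xx he, ss_xx he]; ring

lemma yy_add_xx {e : Euc n} (he : ‖e‖ = 1) (p : Euc n) (c : ℝ) :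
    yy e (p + c • xx e p) = yy e p := by
  rw [yy_line, yy_xx he]; ring

lemma horiz {e : Euc n} (he : ‖e‖ = 1) (p : Euc n) (a : ℝ)
    (h : ∀ t ∈ Icc (0 : ℝ) 1, Rg ((1 + t * a) ^ 2 * ss e p) (yy e p)) :
    JoinedIn (Om e) p (p + a • xx e p) := by
  apply JoinedIn.of_segment_subset
  intro q hq
  rw [segment_eq_image'] at hq
  obtain ⟨t, ht, rfl⟩ := hq
  have e1 : p + t • (p + a • xx e p - p) = p + (t * a) • xx e p := by
    rw [add_sub_cancel_left, smul_smul]
  change p + t • (p + a • xx e p - p) ∈ Om e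
  rw [e1, mem_Om, ss_add_xx he, yy_add_xx he]
  exact h t ht

lemma Rg_neg {s y : ℝ} : Rg s (-y) ↔ Rg s y := by
  unfold Rg phi
  rw [rho_neg, neg_neg]
  tauto

/-- above the gate -/
lemma Rg_high {s y : ℝ} (hy : 1 < y) (h : s / 10 + (y - 1) ^ 2 / 9 < 1) : Rg s y := by
  refine ⟨?_, gg_pos_of hy, gg_pos_of' (by linarith)⟩
  unfold phi
  rw [rho_of_ge hy.le]
  linarith

lemma Rg_mid {s y : ℝ} (h1 : -1 ≤ y) (h2 : y ≤ 1) (hs : s ≤ 5) (a : 0 < gg s y)
    (b : 0 < gg s (-y)) : Rg s y := by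
  refine ⟨?_, a, b⟩
  have := rho_le h1 h2
  unfold phi
  linarith

/-- points above the gate are joined to the base point -/
lemma joinA {e p : Euc n} (he : ‖e‖ = 1) (hp : p ∈ Om e) (hy : 1 ≤ yy e p) :
    JoinedIn (Om e) p ((2 : ℝ) • e) := by
  -- first for `1 < y`
  have main : ∀ q ∈ Om e, 1 < yy e q → JoinedIn (Om e) q ((2 : ℝ) • e) := by
    intro q hq hy
    have hs := ss_nonneg he q
    have h1 : phi (ss e q) (yy e q) < 0 := hq.1
    unfold phi at h1
    rw [rho_of_ge hy.le] at h1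
    have j1 := horiz he q (-1) (fun t ht => by
      refine Rg_high hy ?_
      have : (1 + t * -1) ^ 2 ≤ 1 := by nlinarith [ht.1, ht.2]
      nlinarith)
    have hq4 : yy e q < 4 := by nlinarith
    have e0 : q + (-1 : ℝ) • xx e q = (yy e q) • e := by
      unfold xx
      rw [neg_smul, one_smul]; abel
    rw [e0] at j1
    have e1 : yy e (yy e q • e) = yy e q := by rw [yy_smul, yy_self he, mul_one]
    have e2 : ss e (yy e q • e) = 0 := by
      unfold ss
      rw [e1, norm_smul, he, mul_one, Real.norm_eq_abs, sq_abs, sub_self]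
    have j2 := vert he (yy e q • e) (2 - yy e q) (fun t ht => by
      rw [e1, e2]
      have h5 : 1 < yy e q + t * (2 - yy e q) := by nlinarith [ht.1, ht.2]
      have h6 : yy e q + t * (2 - yy e q) < 4 := by nlinarith [ht.1, ht.2]
      refine Rg_high h5 ?_
      nlinarith)
    have e3 : yy e q • e + (2 - yy e q) • e = (2 : ℝ) • e := by
      rw [← add_smul]; congr 1; ring
    rw [e3] at j2
    exact j1.trans j2
  rcases hy.eq_or_lt with h1 | h1
  · have hs := ss_nonneg he p
    have h2 : phi (ss e p) (yy e p) < 0 := hp.1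
    unfold phi at h2
    rw [← h1, rho_of_ge le_rfl] at h2
    have hg : 0 < gg (ss e p) (yy e p) := hp.2.1
    obtain ⟨δ, hδ⟩ : ∃ δ, δ = 1 - ss e p / 10 := ⟨_, rfl⟩
    have hδ0 : 0 < δ := by linarith
    have hδ1 : δ ≤ 1 := by linarith
    have hrg : ∀ t ∈ Icc (0 : ℝ) 1, Rg (ss e p) (yy e p + t * δ) := by
      intro t ht
      rcases ht.1.eq_or_lt with h0 | h0
      · rw [← h0, zero_mul, add_zero]; exact hp
      · rw [← h1]
        have h5 : 0 < t * δ := mul_pos h0 hδ0
        have h6 : t * δ ≤ δ := mul_le_of_le_one_left hδ0.le ht.2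
        refine Rg_high (by linarith) ?_
        nlinarith
    have j1 := vert he p δ hrg
    refine j1.trans (main _ ?_ ?_)
    · exact j1.mem.2
    · rw [yy_line, yy_self he]; linarith
  · exact main p hp h1

/-- points with `s = 5` -/
lemma joinC5 {e p : Euc n} (he : ‖e‖ = 1) (hs : ss e p = 5) (h1 : -1 ≤ yy e p)
    (h2 : yy e p ≤ 1) : JoinedIn (Om e) p ((2 : ℝ) • e) := by
  have hg : ∀ y, 0 < gg 5 y := fun y => gg_pos_of_s (by norm_num)
  have j1 := vert he p (1 - yy e p) (fun t ht => by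
    rw [hs]
    refine Rg_mid ?_ ?_ (by norm_num) (hg _) (hg _)
    · nlinarith [ht.1, ht.2]
    · nlinarith [ht.1, ht.2])
  refine j1.trans (joinA he j1.mem.2 ?_)
  rw [yy_line, yy_self he]; linarith

/-- scaling the orthogonal part to `s = 5` -/
lemma joinTo5 {e p : Euc n} (he : ‖e‖ = 1) (hs : 0 < ss e p) (h1 : -1 ≤ yy e p)
    (h2 : yy e p ≤ 1)
    (h : ∀ s, (ss e p ≤ s ∧ s ≤ 5) ∨ (5 ≤ s ∧ s ≤ ss e p) → Rg s (yy e p)) :
    JoinedIn (Om e) p ((2 : ℝ) • e) := by
  obtain ⟨c, hc⟩ : ∃ c, c = √(5 / ss e p) := ⟨_, rfl⟩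
  have hc0 : 0 < c := by rw [hc]; exact Real.sqrt_pos.2 (by positivity)
  have hc2 : c ^ 2 * ss e p = 5 := by
    rw [hc, Real.sq_sqrt (by positivity)]; field_simp
  have j1 := horiz he p (c - 1) (fun t ht => by
    apply h
    have e1 : 1 + t * (c - 1) = (1 - t) + t * c := by ring
    rw [e1]
    rcases le_total 1 c with h3 | h3
    · left
      have a1 : 1 ≤ (1 - t) + t * c := by nlinarith [ht.1, ht.2]
      have a2 : (1 - t) + t * c ≤ c := by nlinarith [ht.1, ht.2]
      constructor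
      · have : 1 ≤ ((1 - t) + t * c) ^ 2 := one_le_pow₀ a1
        nlinarith
      · rw [← hc2]
        exact mul_le_mul_of_nonneg_right (pow_le_pow_left₀ (by linarith) a2 2) hs.le
    · right
      have a1 : (1 - t) + t * c ≤ 1 := by nlinarith [ht.1, ht.2]
      have a2 : c ≤ (1 - t) + t * c := by nlinarith [ht.1, ht.2]
      constructor
      · rw [← hc2]
        exact mul_le_mul_of_nonneg_right (pow_le_pow_left₀ hc0.le a2 2) hs.le
      · have : ((1 - t) + t * c) ^ 2 ≤ 1 := pow_le_one₀ (by linarith) a1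
        nlinarith)
  refine j1.trans (joinC5 he ?_ ?_ ?_)
  · rw [ss_add_xx he]
    have : 1 + (c - 1) = c := by ring
    rw [this, hc2]
  · rw [yy_add_xx he]; exact h1
  · rw [yy_add_xx he]; exact h2

lemma exists_perp (hn : 2 ≤ n) {e : Euc n} : ∃ u : Euc n, ‖u‖ = 1 ∧ ⟪e, u⟫ = 0 := by
  obtain ⟨u, hu0, hu⟩ : ∃ u : Euc n, u ≠ 0 ∧ ⟪e, u⟫ = 0 := by
    have hr : 1 < Module.finrank ℝ (Euc n) := by
      rw [finrank_euclideanSpace_fin]; omega
    have hker : 0 < Module.finrank ℝ (LinearMap.ker (innerₛₗ ℝ e : Euc n →ₗ[ℝ] ℝ)) := by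
      have := LinearMap.finrank_range_add_finrank_ker (innerₛₗ ℝ e : Euc n →ₗ[ℝ] ℝ)
      have h2 : Module.finrank ℝ (LinearMap.range (innerₛₗ ℝ e : Euc n →ₗ[ℝ] ℝ)) ≤ 1 := by
        have := Submodule.finrank_le (LinearMap.range (innerₛₗ ℝ e : Euc n →ₗ[ℝ] ℝ))
        simpa using this
      omega
    obtain ⟨v, hv⟩ := Module.finrank_pos_iff_exists_ne_zero.1 hker
    exact ⟨v, fun h => hv (Subtype.ext h), v.2⟩
  refine ⟨‖u‖⁻¹ • u, ?_, ?_⟩
  · rw [norm_smul, norm_inv, norm_norm, inv_mul_cancel₀ (norm_ne_zero_iff.2 hu0)]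
  · rw [inner_smul_right, hu, mul_zero]

/-- the origin is joined to the base point -/
lemma joinO (hn : 2 ≤ n) {e : Euc n} (he : ‖e‖ = 1) : JoinedIn (Om e) 0 ((2 : ℝ) • e) := by
  obtain ⟨u, hu, heu⟩ := exists_perp hn (e := e)
  have hyu : yy e u = 0 := heu
  have hsu : ss e u = 1 := by unfold ss; rw [hyu, hu]; norm_num
  have y0 : yy e (0 : Euc n) = 0 := by unfold yy; exact inner_zero_right _
  have s0 : ss e (0 : Euc n) = 0 := by unfold ss; rw [y0]; simp
  have key : ∀ t : ℝ, ss e ((0 : Euc n) + t • u) = t ^ 2 ∧ yy e ((0 : Euc n) + t • u) = 0 := by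
    intro t
    rw [ss_line, yy_line, s0, y0, hyu, hsu, inner_zero_left]
    constructor <;> ring
  have hg : ∀ s : ℝ, 0 < gg s 0 := fun s => gg_pos_of' (by norm_num)
  have j1 : JoinedIn (Om e) 0 ((0 : Euc n) + √5 • u) := by
    apply JoinedIn.of_segment_subset
    intro q hq
    rw [segment_eq_image'] at hq
    obtain ⟨t, ht, rfl⟩ := hq
    have e1 : (0 : Euc n) + t • ((0 : Euc n) + √5 • u - 0) = 0 + (t * √5) • u := by
      rw [zero_add, zero_add, zero_add, sub_zero, smul_smul]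
    change (0 : Euc n) + t • ((0 : Euc n) + √5 • u - 0) ∈ Om e
    rw [e1, mem_Om, (key _).1, (key _).2]
    refine Rg_mid (by norm_num) (by norm_num) ?_ (hg _) (by rw [neg_zero]; exact hg _)
    rw [mul_pow, Real.sq_sqrt (by norm_num)]
    have : t ^ 2 ≤ 1 := pow_le_one₀ ht.1 ht.2
    linarith
  refine j1.trans (joinC5 he ?_ ?_ ?_)
  · rw [(key _).1, Real.sq_sqrt (by norm_num)]
  · rw [(key _).2]; norm_num
  · rw [(key _).2]; norm_num

/-- every point of the upper half is joined to the base point -/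
lemma joinUp (hn : 2 ≤ n) {e : Euc n} (he : ‖e‖ = 1) {p : Euc n} (hp : p ∈ Om e)
    (hy0 : 0 ≤ yy e p) : JoinedIn (Om e) p ((2 : ℝ) • e) := by
  rcases le_or_gt 1 (yy e p) with h1 | h1
  · exact joinA he hp h1
  have hs := ss_nonneg he p
  have hgp : 0 < gg (ss e p) (yy e p) := hp.2.1
  have hphi : phi (ss e p) (yy e p) < 0 := hp.1
  have hm : ∀ s y : ℝ, 0 ≤ y → 0 < gg s (-y) := fun s y hy => gg_pos_of' (by linarith)
  rcases lt_or_ge 5 (ss e p) with h5 | h5
  · refine joinTo5 he (by linarith) (by linarith) h1.le (fun s hs' => ?_)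
    rcases hs' with h | h
    · linarith [h.1, h.2]
    · refine ⟨?_, gg_pos_of_s (by linarith [h.1]), hm _ _ hy0⟩
      unfold phi at hphi ⊢
      linarith [h.2]
  rcases le_or_gt (3 / 4) (yy e p) with h3 | h3
  · -- go up
    have j1 := vert he p (1 - yy e p) (fun t ht => by
      have a0 : 0 ≤ t * (1 - yy e p) := mul_nonneg ht.1 (by linarith)
      have a1 : t * (1 - yy e p) ≤ 1 - yy e p := mul_le_of_le_one_left (by linarith) ht.2
      refine Rg_mid (by linarith) (by linarith) h5 ?_ (hm _ _ (by linarith))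
      unfold gg at hgp ⊢
      nlinarith)
    refine j1.trans (joinA he j1.mem.2 ?_)
    rw [yy_line, yy_self he]; linarith
  rcases le_or_gt 1 (ss e p) with h6 | h6
  · refine joinTo5 he (by linarith) (by linarith) h1.le (fun s hs' => ?_)
    rcases hs' with h | h
    · refine Rg_mid (by linarith) h1.le h.2 ?_ (hm _ _ hy0)
      unfold gg at hgp ⊢
      nlinarith [h.1]
    · have : s = 5 := by linarith [h.1, h.2]
      rw [this]
      exact Rg_mid (by linarith) h1.le le_rfl (gg_pos_of_s (by norm_num)) (hm _ _ hy0)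
  · -- go to the axis
    have j1 := horiz he p (-1) (fun t ht => by
      have a1 : (1 + t * -1) ^ 2 ≤ 1 := by nlinarith [ht.1, ht.2]
      have a2 : 0 ≤ (1 + t * -1) ^ 2 := sq_nonneg _
      have a3 : (1 + t * -1) ^ 2 * ss e p ≤ ss e p := mul_le_of_le_one_left hs a1
      have a4 : 0 ≤ (1 + t * -1) ^ 2 * ss e p := mul_nonneg a2 hs
      refine Rg_mid (by linarith) h1.le (by linarith) ?_ (hm _ _ hy0)
      unfold gg at hgp ⊢
      nlinarith)
    have e0 : p + (-1 : ℝ) • xx e p = (yy e p) • e := by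
      unfold xx
      rw [neg_smul, one_smul]; abel
    rw [e0] at j1
    have e1 : yy e (yy e p • e) = yy e p := by rw [yy_smul, yy_self he, mul_one]
    have e2 : ss e (yy e p • e) = 0 := by
      unfold ss
      rw [e1, norm_smul, he, mul_one, Real.norm_eq_abs, sq_abs, sub_self]
    have hg0 : 0 < gg 0 (yy e p) := by
      unfold gg at hgp ⊢
      nlinarith
    have j2 := vert he (yy e p • e) (-yy e p) (fun t ht => by
      rw [e1, e2]
      have a0 : 0 ≤ t * yy e p := mul_nonneg ht.1 hy0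
      have a1 : t * yy e p ≤ yy e p := mul_le_of_le_one_left hy0 ht.2
      refine Rg_mid (by linarith) (by linarith) (by norm_num) ?_ (hm _ _ (by linarith))
      unfold gg at hg0 ⊢
      nlinarith)
    have e3 : yy e p • e + (-yy e p) • e = 0 := by
      rw [← add_smul, add_neg_cancel, zero_smul]
    rw [e3] at j2
    exact (j1.trans j2).trans (joinO hn he)

lemma isConnected_Om (hn : 2 ≤ n) {e : Euc n} (he : ‖e‖ = 1) : IsConnected (Om e) := by
  apply IsPathConnected.isConnected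
  refine ⟨0, (joinO hn he).mem.1, fun {p} hp => ?_⟩
  rcases le_total 0 (yy e p) with h | h
  · exact (joinO hn he).trans (joinUp hn he hp h).symm
  · have he' : ‖(-e)‖ = 1 := by rwa [norm_neg]
    rw [← Om_neg e] at hp ⊢
    exact (joinO hn he').trans (joinUp hn he' hp (by rw [yy_neg]; linarith)).symm

lemma isSmoothDomain_Om (hn : 2 ≤ n) {e : Euc n} (he : ‖e‖ = 1) : IsSmoothDomain (Om e) :=
  ⟨isOpen_Om e, isConnected_Om hn he, bounded_Om he, smooth_Om he⟩

end

end Pool.Agent.N237.Pen
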