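import Pool.Agent.N237.Pen.Conn

set_option autoImplicit false
open Set Filter Topology
open scoped RealInnerProductSpace ContDiff

namespace Pool.Agent.N237.Pen
open Pool.Agent.H800R2

noncomputable section

variable {n : ℕ}

/-- the pocket below the gate -/
def Dk (e : Euc n) : Set (Euc n) := {p | ss e p < 1 ∧ 3 / 4 < yy e p ∧ yy e p < 1}

/-- the square of the angular momentum minus the focal term -/
def jj (y b s m S : ℝ) : ℝ := b ^ 2 * s - 2 * b * (y - 1) * m + (y - 1) ^ 2 * S - b ^ 2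

lemma jj_flight (y b s m S t : ℝ) :
    jj (y + t * b) b (s + 2 * t * m + t ^ 2 * S) (m + t * S) S = jj y b s m S := by
  unfold jj; ring

lemma jj_cross {y b s m S t : ℝ} (h : y + t * b = 1) :
    jj y b s m S = b ^ 2 * ((s + 2 * t * m + t ^ 2 * S) - 1) := by
  have hy : y = 1 - t * b := by linarith
  unfold jj
  rw [hy]; ring

/-- arrival states -/
def ArrR (y s J : ℝ) : Prop :=
  (1 < y → 0 ≤ J) ∧ (y = 1 → 1 ≤ s) ∧ (y < 1 → ¬ (s < 1 ∧ 3 / 4 < y))

/-- a path below the gate cannot enter the pocket -/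
lemma no_entry {y s : ℝ → ℝ} (hy : Continuous y) (hs : Continuous s) (hs0 : ∀ t, 0 ≤ s t)
    {t₁ t₂ : ℝ} (h12 : t₁ < t₂) (hin : ∀ t, t₁ < t → t < t₂ → 0 < gg (s t) (y t))
    (hlow : ∀ t, t₁ < t → t ≤ t₂ → y t < 1) (hst : 1 ≤ s t₁ ∨ y t₁ ≤ 3 / 4)
    (hg : 0 ≤ gg (s t₁) (y t₁)) (htip : y t₁ = 1 → s t₁ = 1 → False) :
    ¬ (s t₂ < 1 ∧ 3 / 4 < y t₂) := by
  rintro ⟨h1, h2⟩
  set A : Set ℝ := Icc t₁ t₂ ∩ {t | 1 ≤ s t ∨ y t ≤ 3 / 4} with hA
  have hAc : IsClosed A := isClosed_Icc.inter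
    ((isClosed_le continuous_const hs).union (isClosed_le hy continuous_const))
  have hAn : A.Nonempty := ⟨t₁, ⟨le_rfl, h12.le⟩, hst⟩
  have hAb : BddAbove A := ⟨t₂, fun t ht => ht.1.2⟩
  obtain ⟨t', ht'⟩ : ∃ t', t' = sSup A := ⟨_, rfl⟩
  have hmem : t' ∈ A := by rw [ht']; exact hAc.csSup_mem hAn hAb
  have hlt : t' < t₂ := by
    refine lt_of_le_of_ne hmem.1.2 fun h => ?_
    have := hmem.2
    rw [h] at this
    rcases this with h | h <;> linarith
  have hafter : ∀ t, t' < t → t ≤ t₂ → s t < 1 ∧ 3 / 4 < y t := by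
    intro t h3 h4
    by_contra hcon
    have : t ∈ A := by
      refine ⟨⟨hmem.1.1.trans h3.le, h4⟩, ?_⟩
      by_contra h5
      apply hcon
      simp only [mem_ofPred_eq, not_or, not_le] at h5
      exact h5
    have := le_csSup hAb this
    rw [← ht'] at this
    linarith
  have hcl : t' ∈ closure (Ioc t' t₂) := by
    rw [closure_Ioc hlt.ne]; exact ⟨le_rfl, hlt.le⟩
  have hs1 : s t' ≤ 1 := by
    have : t' ∈ {t | s t ≤ 1} := closure_minimal (fun t ht => (hafter t ht.1 ht.2).1.le)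
      (isClosed_le hs continuous_const) hcl
    exact this
  have hy1 : 3 / 4 ≤ y t' := by
    have : t' ∈ {t | 3 / 4 ≤ y t} := closure_minimal (fun t ht => (hafter t ht.1 ht.2).2.le)
      (isClosed_le continuous_const hy) hcl
    exact this
  have hs0' := hs0 t'
  have hneg : y t' < 1 → gg (s t') (y t') < 0 := by
    intro h3
    rcases hmem.2 with h | h
    · have : s t' = 1 := le_antisymm hs1 h
      rw [this]; unfold gg; nlinarith
    · have : y t' = 3 / 4 := le_antisymm h hy1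
      rw [this]; unfold gg; nlinarith
  rcases hmem.1.1.eq_or_lt with h | h
  · rw [← h] at hneg hs1 hy1 hmem
    rcases lt_or_ge (y t₁) 1 with h3 | h3
    · linarith [hneg h3]
    · have hle : y t₁ ≤ 1 := by
        have hcl' : t₁ ∈ closure (Ioc t₁ t₂) := by
          rw [closure_Ioc h12.ne]; exact ⟨le_rfl, h12.le⟩
        have : t₁ ∈ {t | y t ≤ 1} := closure_minimal (fun t ht => (hlow t ht.1 ht.2).le)
          (isClosed_le hy continuous_const) hcl'
        exact this
      have hy2 : y t₁ = 1 := le_antisymm hle h3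
      refine htip hy2 (le_antisymm hs1 ?_)
      rcases hmem.2 with h4 | h4
      · exact h4
      · exact absurd h4 (by rw [hy2]; norm_num)
  · have h3 := hlow t' h hlt.le
    have h4 := hin t' h hlt
    linarith [hneg h3]

/-- the flight -/
lemma flight_real {y₀ b s₀ m S τ : ℝ} (hτ : 0 < τ) (hs0 : ∀ t, 0 ≤ s₀ + 2 * t * m + t ^ 2 * S)
    (hg : 0 ≤ gg s₀ y₀)
    (hin : ∀ t, 0 < t → t < τ → 0 < gg (s₀ + 2 * t * m + t ^ 2 * S) (y₀ + t * b))
    (hst : ArrR y₀ s₀ (jj y₀ b s₀ m S)) (htip : y₀ = 1 → s₀ = 1 → 0 < b) :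
    ArrR (y₀ + τ * b) (s₀ + 2 * τ * m + τ ^ 2 * S) (jj y₀ b s₀ m S) := by
  obtain ⟨a1, a2, a3⟩ := hst
  obtain ⟨y, hy⟩ : ∃ y : ℝ → ℝ, y = fun t => y₀ + t * b := ⟨_, rfl⟩
  obtain ⟨s, hs⟩ : ∃ s : ℝ → ℝ, s = fun t => s₀ + 2 * t * m + t ^ 2 * S := ⟨_, rfl⟩
  have hyc : Continuous y := by rw [hy]; fun_prop
  have hsc : Continuous s := by rw [hs]; fun_prop
  have hy0 : y 0 = y₀ := by rw [hy]; simp
  have hs00 : s 0 = s₀ := by rw [hs]; simp
  have hyt : ∀ t, y t = y₀ + t * b := fun t => by rw [hy]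
  have hst' : ∀ t, s t = s₀ + 2 * t * m + t ^ 2 * S := fun t => by rw [hs]
  have hsn : ∀ t, 0 ≤ s t := fun t => by rw [hst']; exact hs0 t
  have hin' : ∀ t, 0 < t → t < τ → 0 < gg (s t) (y t) := fun t h1 h2 => by
    rw [hst', hyt]; exact hin t h1 h2
  have hJ : ∀ t, y t = 1 → jj y₀ b s₀ m S = b ^ 2 * (s t - 1) := fun t ht => by
    rw [hst']; exact jj_cross (by rw [← hyt]; exact ht)
  rw [← hyt, ← hst']
  -- entry from time `0`
  have entry : ∀ t₂, 0 < t₂ → t₂ ≤ τ → (∀ t, 0 < t → t ≤ t₂ → y t < 1) → b ≤ 0 ∨ y₀ < 1 →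
      ¬ (s t₂ < 1 ∧ 3 / 4 < y t₂) := by
    intro t₂ h1 h2 h3 h4
    have hy0' : y₀ ≤ 1 := by
      have hcl' : (0:ℝ) ∈ closure (Ioc 0 t₂) := by
        rw [closure_Ioc h1.ne]; exact ⟨le_rfl, h1.le⟩
      have : (0:ℝ) ∈ {t | y t ≤ 1} := closure_minimal (fun t ht => (h3 t ht.1 ht.2).le)
        (isClosed_le hyc continuous_const) hcl'
      rw [← hy0]; exact this
    refine no_entry hyc hsc hsn h1 (fun t h5 h6 => hin' t h5 (h6.trans_le h2)) h3 ?_ ?_ ?_
    · rw [hs00, hy0]
      rcases hy0'.eq_or_lt with h5 | h5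
      · exact Or.inl (a2 h5)
      · by_contra hcon
        push Not at hcon
        exact a3 h5 hcon
    · rw [hs00, hy0]; exact hg
    · rw [hs00, hy0]
      intro h5 h6
      have h7 := htip h5 h6
      rcases h4 with h4 | h4
      · linarith
      · linarith
  rcases lt_trichotomy b 0 with hb | hb | hb
  · -- downwards
    have hmono : ∀ t t', t < t' → y t' < y t := fun t t' h => by
      rw [hyt, hyt]; nlinarith
    refine ⟨fun h => ?_, fun h => ?_, fun h => ?_⟩
    · exact a1 (by have := hmono 0 τ hτ; rw [hy0] at this; linarith)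
    · have h1 : 1 < y₀ := by have := hmono 0 τ hτ; rw [hy0] at this; linarith
      have h2 := a1 h1
      rw [hJ τ h] at h2
      have h3 : 0 < b ^ 2 := by nlinarith
      have := nonneg_of_mul_nonneg_right h2 h3
      linarith
    · rcases lt_or_ge 1 y₀ with h1 | h1
      · -- crossing
        obtain ⟨ts, hts⟩ : ∃ ts, ts = (1 - y₀) / b := ⟨_, rfl⟩
        have hyts : y ts = 1 := by rw [hyt, hts, div_mul_cancel₀ _ hb.ne]; ring
        have hts0 : 0 < ts := by rw [hts]; exact div_pos_of_neg_of_neg (by linarith) hb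
        have htsτ : ts < τ := by
          by_contra hcon
          push Not at hcon
          rcases hcon.eq_or_lt with h5 | h5
          · rw [h5] at h; linarith
          · have := hmono τ ts h5; linarith
        have h2 := a1 h1
        rw [hJ ts hyts] at h2
        have h3 : 0 < b ^ 2 := by nlinarith
        have h4 := nonneg_of_mul_nonneg_right h2 h3
        have h5 := hin' ts hts0 htsτ
        have h6 : s ts ≠ 1 := by
          intro h6
          rw [h6, hyts] at h5
          unfold gg at h5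
          norm_num at h5
        refine no_entry hyc hsc hsn htsτ (fun t h7 h8 => hin' t (hts0.trans h7) h8)
          (fun t h7 _ => by have := hmono ts t h7; linarith) (Or.inl (by linarith)) h5.le
          (fun _ h => h6 h)
      · exact entry τ hτ le_rfl (fun t h3 _ => by have := hmono 0 t h3; rw [hy0] at this; linarith)
          (Or.inl hb.le)
  · -- horizontal
    have hconst : ∀ t, y t = y₀ := fun t => by rw [hyt, hb]; ring
    rw [hconst]
    refine ⟨a1, fun h => ?_, fun h => ?_⟩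
    · by_contra hcon
      push Not at hcon
      have h1 := a2 h
      have h1' : s₀ ≠ 1 := fun h2 => by have := htip h h2; linarith
      have h2 : (1 : ℝ) ∈ Icc (s τ) (s 0) := ⟨hcon.le, by rw [hs00]; exact h1⟩
      obtain ⟨t', ht', h3⟩ := intermediate_value_Icc' hτ.le hsc.continuousOn h2
      have h4 : t' ≠ 0 := fun h4 => by rw [h4, hs00] at h3; exact h1' h3
      have h5 : t' ≠ τ := fun h5 => by rw [h5] at h3; linarith
      have h6 := hin' t' (lt_of_le_of_ne ht'.1 (Ne.symm h4)) (lt_of_le_of_ne ht'.2 h5)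
      rw [h3, hconst, h] at h6
      unfold gg at h6
      norm_num at h6
    · have := entry τ hτ le_rfl (fun t _ _ => by rw [hconst]; exact h) (Or.inl hb.le)
      rwa [hconst] at this
  · -- upwards
    have hmono : ∀ t t', t < t' → y t < y t' := fun t t' h => by
      rw [hyt, hyt]; nlinarith
    rcases lt_or_ge y₀ 1 with h1 | h1
    · rcases lt_or_ge (y τ) 1 with h2 | h2
      · refine ⟨fun h => by linarith, fun h => by linarith, fun _ => ?_⟩
        refine entry τ hτ le_rfl (fun t _ h4 => ?_) (Or.inr h1)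
        rcases h4.eq_or_lt with h5 | h5
        · rw [h5]; exact h2
        · have := hmono t τ h5; linarith
      · obtain ⟨ts, hts⟩ : ∃ ts, ts = (1 - y₀) / b := ⟨_, rfl⟩
        have hyts : y ts = 1 := by rw [hyt, hts, div_mul_cancel₀ _ hb.ne']; ring
        have hts0 : 0 < ts := by rw [hts]; exact div_pos (by linarith) hb
        have htsτ : ts ≤ τ := by
          by_contra hcon
          push Not at hcon
          have := hmono τ ts hcon; linarith
        have hsts : 1 ≤ s ts := by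
          by_contra hcon
          push Not at hcon
          have e1 : ∀ᶠ t in 𝓝[<] ts, s t < 1 :=
            (hsc.continuousAt.eventually (gt_mem_nhds hcon)).filter_mono nhdsWithin_le_nhds
          have e2 : ∀ᶠ t in 𝓝[<] ts, 3 / 4 < y t :=
            (hyc.continuousAt.eventually (lt_mem_nhds (by rw [hyts]; norm_num))).filter_mono
              nhdsWithin_le_nhds
          have e3 : ∀ᶠ t in 𝓝[<] ts, 0 < t :=
            (eventually_gt_nhds hts0).filter_mono nhdsWithin_le_nhds
          obtain ⟨t, ⟨⟨h3, h4⟩, h5⟩, h6⟩ :=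
            (((e1.and e2).and e3).and self_mem_nhdsWithin).exists
          have h6' : t < ts := h6
          refine entry t h5 (h6'.le.trans htsτ) (fun t' _ h8 => ?_) (Or.inr h1) ⟨h3, h4⟩
          have := hmono t' ts (h8.trans_lt h6'); linarith
        have h3 : 0 ≤ jj y₀ b s₀ m S := by
          rw [hJ ts hyts]; exact mul_nonneg (sq_nonneg _) (by linarith)
        refine ⟨fun _ => h3, fun h => ?_, fun h => by linarith⟩
        have : ts = τ := by
          rcases htsτ.eq_or_lt with h4 | h4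
          · exact h4
          · have := hmono ts τ h4; linarith
        rw [← this]; exact hsts
    · have h2 : 1 < y τ := by have := hmono 0 τ hτ; rw [hy0] at this; linarith
      refine ⟨fun _ => ?_, fun h => by linarith, fun h => by linarith⟩
      rcases h1.eq_or_lt with h3 | h3
      · rw [hJ 0 (by rw [hy0]; exact h3.symm), hs00]
        exact mul_nonneg (sq_nonneg _) (by linarith [a2 h3.symm])
      · exact a1 h3

/-- arrival states of the photon -/
def Arr (e p v : Euc n) : Prop :=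
  ArrR (yy e p) (ss e p) (jj (yy e p) (yy e v) (ss e p) (⟪p, v⟫ - yy e p * yy e v) (ss e v))

/-- initial states of a flight -/
def Start (e p v : Euc n) : Prop :=
  0 ≤ Gp e p ∧ Arr e p v ∧ (yy e p = 1 → ss e p = 1 → 0 < yy e v)

lemma flight {e : Euc n} (he : ‖e‖ = 1) {p v : Euc n} {τ : ℝ} (hτ : 0 < τ) (hst : Start e p v)
    (hin : ∀ t ∈ Ioo 0 τ, p + t • v ∈ Om e) : Arr e (p + τ • v) v := by
  obtain ⟨h1, h2, h3⟩ := hst
  have key := flight_real (y₀ := yy e p) (b := yy e v) (s₀ := ss e p)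
    (m := ⟪p, v⟫ - yy e p * yy e v) (S := ss e v) hτ
    (fun t => by rw [← ss_line]; exact ss_nonneg he _) h1
    (fun t h4 h5 => by
      have := (hin t ⟨h4, h5⟩).2.1
      unfold Gp at this
      rwa [ss_line, yy_line] at this) h2 h3
  unfold Arr
  have e1 : ⟪p + τ • v, v⟫ - yy e (p + τ • v) * yy e v
      = (⟪p, v⟫ - yy e p * yy e v) + τ * ss e v := by
    rw [inner_add_left, inner_smul_left, yy_line, real_inner_self_eq_norm_sq]
    unfold ss
    simp only [conj_trivial]
    ring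
  rw [e1, yy_line, ss_line, jj_flight]
  exact key

lemma grad_eq {F : Euc n → ℝ} {p N : Euc n} (h : ∀ u, ⟪gradient F p, u⟫ = ⟪N, u⟫) :
    gradient F p = N := ext_inner_right ℝ h

/-- the bounce -/
lemma bounce_start {e : Euc n} (he : ‖e‖ = 1) {q v ν : Euc n} (hq : q ∈ frontier (Om e))
    (hν : IsOuterNormal (Om e) q ν) (hv : 0 < ⟪v, ν⟫) (h : Arr e q v) :
    Start e q (v - (2 * ⟪v, ν⟫) • ν) := by
  obtain ⟨F, hF, rfl⟩ := hν
  have hfr := frontier_Om hq
  have hO := isOpen_Om e
  obtain ⟨h1, h2, h3⟩ := h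
  refine ⟨?_, ⟨fun hy => ?_, h2, h3⟩, fun hy hs => ?_⟩
  · rcases hfr with h | h | h
    · exact h.2.1.le
    · exact h.2.1.ge
    · exact h.2.1.le
  · -- on the cap
    have hphi : Phi e q = 0 := by
      rcases hfr with h | h | h
      · exact h.1
      · exact absurd h.2.1 (ne_of_gt (gg_pos_of hy))
      · exact absurd h.2.2 (ne_of_gt (gg_pos_of' (by linarith)))
    have hD := defFun_Phi he hphi
    have hnu := hF.normal_unique hD hO hq
    rw [hnu] at hv ⊢
    have hN : gradient (Phi e) q = (1 / 5 : ℝ) • xx e q + (2 * (yy e q - 1) / 9) • e := by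
      apply grad_eq
      intro u
      rw [grad_Phi e q u (hd_rho_of_gt hy), inner_add_left, inner_smul_left, inner_smul_left]
      unfold xx
      rw [inner_sub_left, inner_smul_left]
      simp only [conj_trivial]
      change _ = 1 / 5 * (⟪q, u⟫ - yy e q * yy e u) + 2 * (yy e q - 1) / 9 * yy e u
      ring
    obtain ⟨α, hα⟩ : ∃ α, α = ‖gradient (Phi e) q‖⁻¹ := ⟨_, rfl⟩
    have hne : gradient (Phi e) q ≠ 0 := hD.2.1
    have hαn : α ^ 2 * ‖gradient (Phi e) q‖ ^ 2 = 1 := by
      rw [hα, ← mul_pow, inv_mul_cancel₀ (norm_ne_zero_iff.2 hne), one_pow]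
    rw [← hα] at hv ⊢
    obtain ⟨y, hy'⟩ : ∃ y, y = yy e q := ⟨_, rfl⟩
    obtain ⟨b, hb⟩ : ∃ b, b = yy e v := ⟨_, rfl⟩
    obtain ⟨s, hs⟩ : ∃ s, s = ss e q := ⟨_, rfl⟩
    obtain ⟨m, hm⟩ : ∃ m, m = ⟪q, v⟫ - yy e q * yy e v := ⟨_, rfl⟩
    obtain ⟨S, hS⟩ : ∃ S, S = ss e v := ⟨_, rfl⟩
    have hJ := h1 hy
    rw [← hm, ← hy', ← hb, ← hs, ← hS] at hJ
    -- the normal vector
    have hxe : ⟪xx e q, e⟫ = 0 := by
      have := yy_xx he q
      unfold yy at this
      rwa [real_inner_comm] at this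
    have hxx : ‖xx e q‖ ^ 2 = s := by
      have h5 := ss_xx he q
      unfold ss at h5
      rw [yy_xx he] at h5
      rw [hs]
      unfold ss
      linarith
    have hNn : ‖gradient (Phi e) q‖ ^ 2 = s / 25 + 4 * (y - 1) ^ 2 / 81 := by
      rw [hN, norm_add_sq_real, norm_smul, norm_smul, inner_smul_left, inner_smul_right, hxe, he,
        mul_pow, mul_pow, hxx, Real.norm_eq_abs, Real.norm_eq_abs, sq_abs, sq_abs, ← hy']
      simp
      ring
    have hvN : ⟪v, gradient (Phi e) q⟫ = m / 5 + 2 * (y - 1) / 9 * b := by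
      rw [hN, inner_add_right, inner_smul_right, inner_smul_right]
      unfold xx
      rw [inner_sub_right, inner_smul_right]
      have e1 : ⟪v, e⟫ = b := by rw [hb]; exact real_inner_comm _ _
      have e2 : ⟪v, q⟫ = m + y * b := by
        rw [hm, hy', hb, real_inner_comm]; ring
      rw [e1, e2, ← hy']
      ring
    have hyN : yy e (gradient (Phi e) q) = 2 * (y - 1) / 9 := by
      rw [hN, yy_add, yy_smul, yy_smul, yy_xx he, yy_self he, ← hy']
      ring
    have hqN : ⟪q, gradient (Phi e) q⟫ = s / 5 + 2 * (y - 1) / 9 * y := by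
      rw [hN, inner_add_right, inner_smul_right, inner_smul_right, inner_xx, ← hs]
      have e1 : ⟪q, e⟫ = y := by rw [hy']; exact real_inner_comm _ _
      rw [e1, ← hy']
      ring
    -- the new velocity
    obtain ⟨κ, hκ⟩ : ∃ κ, κ = 2 * (α ^ 2 * (m / 5 + 2 * (y - 1) / 9 * b)) := ⟨_, rfl⟩
    have hnew : v - (2 * ⟪v, α • gradient (Phi e) q⟫) • α • gradient (Phi e) q
        = v + (-κ) • gradient (Phi e) q := by
      rw [inner_smul_right, hvN, smul_smul, hκ, neg_smul, sub_eq_add_neg]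
      congr 3
      ring
    rw [hnew, yy_line, ss_line, hyN, inner_add_right, inner_smul_right, hqN, hvN, ← hy', ← hb,
      ← hs, ← hS]
    have hSN : ss e (gradient (Phi e) q) = s / 25 := by
      unfold ss
      rw [hNn, hyN]; ring
    rw [hSN]
    have hm2 : ⟪q, v⟫ = m + y * b := by rw [hm, hy', hb]; ring
    rw [hm2]
    -- the equation of the cap
    have hcap : s / 10 + (y - 1) ^ 2 / 9 = 1 := by
      unfold Phi phi at hphi
      rw [rho_of_ge hy.le] at hphi
      rw [hs, hy']; linarith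
    have hk : κ * (s / 25 + 4 * (y - 1) ^ 2 / 81) = 2 * (m / 5 + 2 * (y - 1) / 9 * b) := by
      rw [hκ, ← hNn]
      linear_combination (2 * (m / 5 + 2 * (y - 1) / 9 * b)) * hαn
    have hgoal : jj y (b + -κ * (2 * (y - 1) / 9)) s
        (m + y * b + -κ * (s / 5 + 2 * (y - 1) / 9 * y) - y * (b + -κ * (2 * (y - 1) / 9)))
        (S + 2 * -κ * (m / 5 + 2 * (y - 1) / 9 * b - b * (2 * (y - 1) / 9)) + (-κ) ^ 2 * (s / 25))
        = jj y b s m S := by
      unfold jj
      have hs' : s = 10 - 10 * (y - 1) ^ 2 / 9 := by linarith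
      rw [hs'] at hk ⊢
      linear_combination (-(y - 1) ^ 2 * κ / 9) * hk
    rw [hgoal]
    exact hJ
  · -- at the tip
    have hg0 : Gp e q = 0 := by unfold Gp gg; rw [hy, hs]; norm_num
    have h5 : Phi e q < 0 ∧ 0 < Gm e q := by
      rcases hfr with h | h | h
      · exact absurd hg0 (ne_of_gt h.2.1)
      · exact ⟨h.1, h.2.2⟩
      · exact absurd hg0 (ne_of_gt h.2.1)
    have hD := defFun_Gp he hg0 h5.1 h5.2
    have hnu := hF.normal_unique hD hO hq
    rw [hnu] at hv ⊢
    have hN : gradient (fun q => -Gp e q) q = (-(1 / 2) : ℝ) • e := by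
      have h6 : gradient (fun q => -Gp e q) q = - gradient (Gp e) q := by
        unfold gradient
        rw [fderiv_fun_neg, map_neg]
      rw [h6]
      have h7 : gradient (Gp e) q = (1 / 2 : ℝ) • e := by
        apply grad_eq
        intro u
        rw [grad_Gp, hy, hs, inner_smul_left]
        simp only [conj_trivial]
        change _ = 1 / 2 * yy e u
        ring
      rw [h7, neg_smul]
    have hN2 : ‖gradient (fun q => -Gp e q) q‖⁻¹ • gradient (fun q => -Gp e q) q = -e := by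
      rw [hN, norm_smul, he, mul_one, smul_smul]
      norm_num
    rw [hN2] at hv ⊢
    have e1 : ⟪v, -e⟫ = -yy e v := by
      rw [inner_neg_right, real_inner_comm]; rfl
    rw [e1] at hv ⊢
    have e2 : v - (2 * -yy e v) • -e = v + (-(2 * yy e v)) • e := by
      rw [smul_neg, sub_neg_eq_add]
      congr 2
      ring
    rw [e2, yy_line, yy_self he]
    linarith

lemma photon {e : Euc n} (he : ‖e‖ = 1) {p v q : Euc n} {t : ℝ} (h : Photon (Om e) p v t q)
    (hst : Start e p v) : q ∉ Dk e := by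
  induction h with
  | fly p v t ht hin =>
    have harr : Arr e (p + t • v) v := by
      rcases ht.eq_or_lt with h0 | h0
      · rw [← h0, zero_smul, add_zero]; exact hst.2.1
      · exact flight he h0 hst fun s hs => hin s ⟨hs.1, hs.2.le⟩
    rintro ⟨h1, h2, h3⟩
    exact harr.2.2 h3 ⟨h1, h2⟩
  | bounce p v ν q τ t hτ hin hb hν hv _ ih =>
    exact ih (bounce_start he hb hν hv (flight he hτ hst hin))

lemma isOpen_Dk (e : Euc n) : IsOpen (Dk e) :=
  (isOpen_lt (contDiff_ss e).continuous continuous_const).inter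
    ((isOpen_lt continuous_const (contDiff_yy e).continuous).inter
      (isOpen_lt (contDiff_yy e).continuous continuous_const))

lemma Dk_nonempty {e : Euc n} (he : ‖e‖ = 1) : (Om e ∩ Dk e).Nonempty := by
  have hy : yy e ((98 / 100 : ℝ) • e) = 98 / 100 := by rw [yy_smul, yy_self he, mul_one]
  have hs : ss e ((98 / 100 : ℝ) • e) = 0 := by
    unfold ss
    rw [hy, norm_smul, he, mul_one, Real.norm_eq_abs, sq_abs]; norm_num
  refine ⟨(98 / 100 : ℝ) • e, ?_, ?_⟩
  · rw [mem_Om, hy, hs]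
    refine Rg_mid (by norm_num) (by norm_num) (by norm_num) ?_ ?_
    · unfold gg; norm_num
    · unfold gg; norm_num
  · refine ⟨?_, ?_, ?_⟩
    · rw [hs]; norm_num
    · rw [hy]; norm_num
    · rw [hy]; norm_num

lemma dark {e : Euc n} (he : ‖e‖ = 1) {P : Euc n} (hP : P ∈ Om e) (hy : yy e P < 1)
    (hD : P ∉ Dk e) (t : ℝ) : Disjoint (front (Om e) P t) (Om e ∩ Dk e) := by
  rw [disjoint_left]
  rintro q ⟨v, -, hv⟩ hq
  refine photon he hv ?_ hq.2
  refine ⟨hP.2.1.le, ⟨fun h => by linarith, fun h => by linarith, fun _ h => hD ⟨h.1, h.2, hy⟩⟩,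
    fun h => by linarith⟩

/-- every point of the room has a dark region -/
lemma dark_all {e : Euc n} (he : ‖e‖ = 1) {P : Euc n} (hP : P ∈ Om e) :
    (∀ t, Disjoint (front (Om e) P t) (Om e ∩ Dk e)) ∨
      ∀ t, Disjoint (front (Om e) P t) (Om e ∩ Dk (-e)) := by
  by_cases h : yy e P < 1 ∧ P ∉ Dk e
  · exact Or.inl fun t => dark he hP h.1 h.2 t
  · right
    have hy : 0 < yy e P := by
      by_contra hcon
      push Not at hcon
      exact h ⟨by linarith, fun hd => by linarith [hd.2.1]⟩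
    have he' : ‖(-e)‖ = 1 := by rwa [norm_neg]
    intro t
    have h2 := dark (e := -e) he' (by rwa [Om_neg]) (P := P) (by rw [yy_neg]; linarith)
      (fun hd => by have := hd.2.1; rw [yy_neg] at this; linarith) t
    rwa [Om_neg] at h2

lemma not_dense {Ω : Set (Euc n)} {P : Euc n} {W : Set (Euc n)} (hW : IsOpen W)
    (hne : W.Nonempty) (hWΩ : W ⊆ Ω) (hd : ∀ t, Disjoint (front Ω P t) W) :
    ¬ FrontsBecomeDense Ω P := by
  obtain ⟨x, hx⟩ := hne
  intro hden
  obtain ⟨r, hr, hb⟩ := Metric.isOpen_iff.1 hW x hx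
  obtain ⟨T, hT⟩ := hden r hr
  obtain ⟨q, hq, hxq⟩ := hT T le_rfl x (hWΩ hx)
  exact disjoint_left.1 (hd T) hq (hb (by rwa [Metric.mem_ball, dist_comm]))

theorem main (hn : 2 ≤ n) : ∃ Ω W₁ W₂ : Set (Euc n), IsSmoothDomain Ω ∧
    (IsOpen W₁ ∧ W₁.Nonempty ∧ W₁ ⊆ Ω) ∧ (IsOpen W₂ ∧ W₂.Nonempty ∧ W₂ ⊆ Ω) ∧
    ∀ P ∈ Ω, ((∀ t, Disjoint (front Ω P t) W₁) ∨ (∀ t, Disjoint (front Ω P t) W₂)) ∧
      ¬ FrontsBecomeDense Ω P := by
  obtain ⟨e, he⟩ : ∃ e : Euc n, ‖e‖ = 1 := by
    have : NeZero n := ⟨by omega⟩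
    exact ⟨EuclideanSpace.single 0 1, by simp⟩
  have he' : ‖(-e)‖ = 1 := by rwa [norm_neg]
  have o1 := (isOpen_Om e).inter (isOpen_Dk e)
  have o2 := (isOpen_Om e).inter (isOpen_Dk (-e))
  have n1 := Dk_nonempty he
  have n2 := Dk_nonempty he'
  rw [Om_neg] at n2
  refine ⟨Om e, Om e ∩ Dk e, Om e ∩ Dk (-e), isSmoothDomain_Om hn he,
    ⟨o1, n1, inter_subset_left⟩, ⟨o2, n2, inter_subset_left⟩, fun P hP => ?_⟩
  refine ⟨dark_all he hP, ?_⟩
  rcases dark_all he hP with h | h
  · exact not_dense o1 n1 inter_subset_left h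
  · exact not_dense o2 n2 inter_subset_left h

end

end Pool.Agent.N237.Pen
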