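import Pool.Agent.H800R2.Front

set_option autoImplicit false
open Set Filter Topology
open scoped RealInnerProductSpace ContDiff

namespace Pool.Agent.N237.Pen
open Pool.Agent.H800R2

noncomputable section

variable {n : ℕ}

/-- the height of `p` in the direction `e` -/
def yy (e p : Euc n) : ℝ := ⟪e, p⟫
/-- the squared distance of `p` from the axis -/
def ss (e p : Euc n) : ℝ := ‖p‖ ^ 2 - (yy e p) ^ 2

/-- the profile of the upper cap -/
def rr (y : ℝ) : ℝ := Real.smoothTransition ((y + 1) / 2) * ((y - 1) ^ 2 / 9)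
def rho (y : ℝ) : ℝ := rr y + rr (-y)
def phi (s y : ℝ) : ℝ := s / 10 + rho y - 1
def gg (s y : ℝ) : ℝ := (y - 1) ^ 2 + (y - 1) / 2 + (s - 1) ^ 2 / 64

def Phi (e p : Euc n) : ℝ := phi (ss e p) (yy e p)
def Gp (e p : Euc n) : ℝ := gg (ss e p) (yy e p)
def Gm (e p : Euc n) : ℝ := gg (ss e p) (-(yy e p))

/-- the room -/
def Om (e : Euc n) : Set (Euc n) := {p | Phi e p < 0 ∧ 0 < Gp e p ∧ 0 < Gm e p}

lemma yy_add (e p q : Euc n) : yy e (p + q) = yy e p + yy e q := inner_add_right _ _ _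
lemma yy_smul (e p : Euc n) (t : ℝ) : yy e (t • p) = t * yy e p := by
  unfold yy; rw [inner_smul_right]

lemma yy_line (e p u : Euc n) (t : ℝ) : yy e (p + t • u) = yy e p + t * yy e u := by
  rw [yy_add, yy_smul]

lemma ss_line (e p u : Euc n) (t : ℝ) :
    ss e (p + t • u) = ss e p + 2 * t * (⟪p, u⟫ - yy e p * yy e u) + t ^ 2 * ss e u := by
  unfold ss
  rw [yy_line, norm_add_sq_real, norm_smul, inner_smul_right, mul_pow, Real.norm_eq_abs, sq_abs]
  ring

lemma ss_nonneg {e : Euc n} (he : ‖e‖ = 1) (p : Euc n) : 0 ≤ ss e p := by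
  have h := abs_real_inner_le_norm e p
  rw [he, one_mul] at h
  have : (yy e p) ^ 2 ≤ ‖p‖ ^ 2 := by
    rw [← sq_abs (yy e p)]
    exact pow_le_pow_left₀ (abs_nonneg _) h 2
  unfold ss
  linarith

lemma yy_self {e : Euc n} (he : ‖e‖ = 1) : yy e e = 1 := by
  unfold yy; rw [real_inner_self_eq_norm_sq, he]; norm_num

lemma ss_self {e : Euc n} (he : ‖e‖ = 1) : ss e e = 0 := by
  unfold ss; rw [yy_self he, he]; norm_num

lemma yy_neg (e p : Euc n) : yy (-e) p = -yy e p := by unfold yy; rw [inner_neg_left]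
lemma ss_neg (e p : Euc n) : ss (-e) p = ss e p := by unfold ss; rw [yy_neg]; ring

lemma rho_neg (y : ℝ) : rho (-y) = rho y := by unfold rho; rw [neg_neg]; ring

lemma Om_neg (e : Euc n) : Om (-e) = Om e := by
  ext p
  simp only [Om, Phi, Gp, Gm, mem_ofPred_eq, yy_neg, ss_neg, phi, rho_neg, neg_neg]
  tauto

lemma rr_of_ge {y : ℝ} (hy : 1 ≤ y) : rr y = (y - 1) ^ 2 / 9 := by
  unfold rr
  rw [Real.smoothTransition.one_of_one_le (by linarith), one_mul]

lemma rr_of_le {y : ℝ} (hy : y ≤ -1) : rr y = 0 := by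
  unfold rr
  rw [Real.smoothTransition.zero_of_nonpos (by linarith), zero_mul]

lemma rr_nonneg (y : ℝ) : 0 ≤ rr y :=
  mul_nonneg (Real.smoothTransition.nonneg _) (by positivity)

lemma rr_le (y : ℝ) : rr y ≤ (y - 1) ^ 2 / 9 :=
  mul_le_of_le_one_left (by positivity) (Real.smoothTransition.le_one _)

lemma rho_of_ge {y : ℝ} (hy : 1 ≤ y) : rho y = (y - 1) ^ 2 / 9 := by
  unfold rho
  rw [rr_of_ge hy, rr_of_le (by linarith : -y ≤ -1), add_zero]

lemma rho_of_le {y : ℝ} (hy : y ≤ -1) : rho y = (y + 1) ^ 2 / 9 := by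
  rw [← rho_neg, rho_of_ge (by linarith)]
  ring

lemma rho_nonneg (y : ℝ) : 0 ≤ rho y := add_nonneg (rr_nonneg _) (rr_nonneg _)

lemma rho_le {y : ℝ} (h1 : -1 ≤ y) (h2 : y ≤ 1) : rho y ≤ 4 / 9 := by
  have a := rr_le y
  have b := rr_le (-y)
  unfold rho
  nlinarith

lemma contDiff_rho : ContDiff ℝ ∞ rho := by
  have h : ContDiff ℝ ∞ rr := by
    unfold rr
    exact (Real.smoothTransition.contDiff.comp (by fun_prop)).mul (by fun_prop)
  exact h.add (h.comp contDiff_neg)

lemma gg_pos_of {s y : ℝ} (hy : 1 < y) : 0 < gg s y := by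
  unfold gg; nlinarith [sq_nonneg (y - 1), sq_nonneg (s - 1)]

lemma gg_pos_of' {s y : ℝ} (hy : y < 1 / 2) : 0 < gg s y := by
  unfold gg; nlinarith [sq_nonneg (y - 1), sq_nonneg (s - 1)]

lemma gg_pos_of_s {s y : ℝ} (hs : 3 < s) : 0 < gg s y := by
  unfold gg; nlinarith [sq_nonneg (y - 3 / 4)]

/-- outside and on the outer boundary there is no obstacle -/
lemma gg_pos_of_phi {s y : ℝ} (h : 0 ≤ phi s y) : 0 < gg s y := by
  rcases lt_or_ge 1 y with h1 | h1
  · exact gg_pos_of h1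
  rcases lt_or_ge y (1 / 2) with h2 | h2
  · exact gg_pos_of' h2
  · have := rho_le (y := y) (by linarith) h1
    unfold phi at h
    exact gg_pos_of_s (by linarith)

lemma gm_pos_of_phi {s y : ℝ} (h : 0 ≤ phi s y) : 0 < gg s (-y) :=
  gg_pos_of_phi (by unfold phi at h ⊢; rwa [rho_neg])

lemma contDiff_yy (e : Euc n) : ContDiff ℝ ∞ (yy e) := by
  unfold yy
  exact contDiff_const.inner ℝ contDiff_id

lemma contDiff_ss (e : Euc n) : ContDiff ℝ ∞ (ss e) := by
  unfold ss
  exact (contDiff_norm_sq ℝ).sub ((contDiff_yy e).pow 2)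

lemma contDiff_Phi (e : Euc n) : ContDiff ℝ ∞ (Phi e) := by
  unfold Phi phi
  exact (((contDiff_ss e).div_const _).add (contDiff_rho.comp (contDiff_yy e))).sub contDiff_const

lemma contDiff_Gp (e : Euc n) : ContDiff ℝ ∞ (Gp e) := by
  unfold Gp gg
  have h1 := contDiff_yy e
  have h2 := contDiff_ss e
  exact (((h1.sub contDiff_const).pow 2).add ((h1.sub contDiff_const).div_const _)).add
    (((h2.sub contDiff_const).pow 2).div_const _)

lemma Gm_eq (e p : Euc n) : Gm e p = Gp (-e) p := by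
  unfold Gm Gp; rw [ss_neg, yy_neg]

lemma Phi_neg (e p : Euc n) : Phi (-e) p = Phi e p := by
  unfold Phi phi; rw [ss_neg, yy_neg, rho_neg]

lemma isOpen_Om (e : Euc n) : IsOpen (Om e) := by
  have h1 := (contDiff_Phi e).continuous
  have h2 := (contDiff_Gp e).continuous
  have h3 : Continuous (Gm e) := by
    have : Gm e = Gp (-e) := funext fun p => Gm_eq e p
    rw [this]; exact (contDiff_Gp (-e)).continuous
  exact (isOpen_lt h1 continuous_const).inter
    ((isOpen_lt continuous_const h2).inter (isOpen_lt continuous_const h3))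

/-- derivative along a line -/
lemma grad_inner {F : Euc n → ℝ} (hF : ContDiff ℝ ∞ F) (x u : Euc n) {d : ℝ}
    (h : HasDerivAt (fun t : ℝ => F (x + t • u)) d 0) : ⟪gradient F x, u⟫ = d := by
  have hd : HasFDerivAt F (fderiv ℝ F x) x :=
    (hF.differentiable (by simp)).differentiableAt.hasFDerivAt
  have hl : HasDerivAt (fun s : ℝ => x + s • u) u 0 := by
    simpa using ((hasDerivAt_id (0 : ℝ)).smul_const u).const_add x
  have hc : HasDerivAt (fun s : ℝ => F (x + s • u)) (fderiv ℝ F x u) 0 :=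
    HasFDerivAt.comp_hasDerivAt (x := (0 : ℝ)) (f := fun s : ℝ => x + s • u)
      (l := F) (l' := fderiv ℝ F x) (by simpa using hd) hl
  have hg : ⟪gradient F x, u⟫ = fderiv ℝ F x u := by
    unfold gradient
    rw [InnerProductSpace.toDual_symm_apply]
  rw [hg]
  exact hc.unique h

lemma hd_yy (e p u : Euc n) : HasDerivAt (fun t : ℝ => yy e (p + t • u)) (yy e u) 0 := by
  have : (fun t : ℝ => yy e (p + t • u)) = fun t => yy e p + t * yy e u :=
    funext fun t => yy_line e p u t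
  rw [this]
  simpa using ((hasDerivAt_id (0 : ℝ)).mul_const (yy e u)).const_add (yy e p)

lemma hd_ss (e p u : Euc n) :
    HasDerivAt (fun t : ℝ => ss e (p + t • u)) (2 * (⟪p, u⟫ - yy e p * yy e u)) 0 := by
  have : (fun t : ℝ => ss e (p + t • u)) = fun t =>
      ss e p + 2 * t * (⟪p, u⟫ - yy e p * yy e u) + t ^ 2 * ss e u :=
    funext fun t => ss_line e p u t
  rw [this]
  have h1 := (((hasDerivAt_id (0 : ℝ)).const_mul 2).mul_const
    (⟪p, u⟫ - yy e p * yy e u)).const_add (ss e p)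
  have h2 := ((hasDerivAt_pow 2 (0 : ℝ)).mul_const (ss e u))
  refine (h1.fun_add h2).congr_deriv ?_
  simp

/-- gradient of `Gp` -/
lemma grad_Gp (e p u : Euc n) : ⟪gradient (Gp e) p, u⟫ =
    (2 * (yy e p - 1) + 1 / 2) * yy e u + (ss e p - 1) / 16 * (⟪p, u⟫ - yy e p * yy e u) := by
  refine grad_inner (contDiff_Gp e) p u ?_
  have h1 := hd_yy e p u
  have h2 := hd_ss e p u
  have h3 := (((h1.sub_const 1).fun_pow 2).fun_add ((h1.sub_const 1).div_const 2)).fun_add
    (((h2.sub_const 1).fun_pow 2).div_const 64)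
  refine h3.congr_deriv ?_
  simp
  ring

/-- gradient of `Phi` -/
lemma grad_Phi (e p u : Euc n) {d : ℝ} (hd : HasDerivAt rho d (yy e p)) :
    ⟪gradient (Phi e) p, u⟫ = d * yy e u + 1 / 5 * (⟪p, u⟫ - yy e p * yy e u) := by
  refine grad_inner (contDiff_Phi e) p u ?_
  have h1 := hd_yy e p u
  have h2 := hd_ss e p u
  have h4 : HasDerivAt (fun t : ℝ => rho (yy e (p + t • u))) (d * yy e u) 0 := by
    have h5 : HasDerivAt rho d (yy e (p + (0 : ℝ) • u)) := by simpa using hd
    exact h5.comp (0 : ℝ) h1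
  have h3 := ((h2.div_const 10).fun_add h4).sub_const 1
  refine h3.congr_deriv ?_
  ring

lemma hd_rho_of_gt {y : ℝ} (hy : 1 < y) : HasDerivAt rho (2 * (y - 1) / 9) y := by
  have h : (fun z : ℝ => (z - 1) ^ 2 / 9) =ᶠ[𝓝 y] rho := by
    filter_upwards [lt_mem_nhds hy] with z hz
    rw [rho_of_ge (le_of_lt hz)]
  refine HasDerivAt.congr_of_eventuallyEq ?_ h.symm
  refine ((((hasDerivAt_id y).sub_const 1).fun_pow 2).div_const 9).congr_deriv ?_
  simp

lemma hd_rho_of_lt {y : ℝ} (hy : y < -1) : HasDerivAt rho (2 * (y + 1) / 9) y := by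
  have h : (fun z : ℝ => (z + 1) ^ 2 / 9) =ᶠ[𝓝 y] rho := by
    filter_upwards [gt_mem_nhds hy] with z hz
    rw [rho_of_le (le_of_lt hz)]
  refine HasDerivAt.congr_of_eventuallyEq ?_ h.symm
  refine ((((hasDerivAt_id y).add_const 1).fun_pow 2).div_const 9).congr_deriv ?_
  simp

lemma grad_Gp_ne {e p : Euc n} (he : ‖e‖ = 1) (h : Gp e p = 0) : gradient (Gp e) p ≠ 0 := by
  intro h0
  have h1 := grad_Gp e p e
  have h2 := grad_Gp e p p
  rw [h0, inner_zero_left] at h1 h2
  have h3 : ⟪p, e⟫ = yy e p := real_inner_comm _ _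
  have h4 : ⟪p, p⟫ = ss e p + yy e p ^ 2 := by
    rw [real_inner_self_eq_norm_sq]; unfold ss; ring
  rw [h3, yy_self he] at h1
  rw [h4] at h2
  unfold Gp gg at h
  have hy : yy e p = 3 / 4 := by linarith
  rw [hy] at h2 h
  have h5 : (ss e p - 1) * ss e p = 0 := by nlinarith
  rcases mul_eq_zero.1 h5 with h6 | h6
  · rw [h6] at h; norm_num at h
  · rw [h6] at h; norm_num at h

lemma grad_Phi_ne {e p : Euc n} (he : ‖e‖ = 1) (h : Phi e p = 0) : gradient (Phi e) p ≠ 0 := by
  intro h0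
  have hdiff : HasDerivAt rho (deriv rho (yy e p)) (yy e p) :=
    ((contDiff_rho.differentiable (by simp)) _).hasDerivAt
  have h4 : ⟪p, p⟫ = ss e p + yy e p ^ 2 := by
    rw [real_inner_self_eq_norm_sq]; unfold ss; ring
  have h3 : ⟪p, e⟫ = yy e p := real_inner_comm _ _
  have h1 := grad_Phi e p e hdiff
  have h2 := grad_Phi e p p hdiff
  rw [h0, inner_zero_left] at h1 h2
  rw [h3, yy_self he] at h1
  have hd0 : deriv rho (yy e p) = 0 := by linarith
  rw [h4, hd0] at h2
  have hs : ss e p = 0 := by nlinarith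
  unfold Phi phi at h
  rw [hs] at h
  have hr : rho (yy e p) = 1 := by linarith
  rcases lt_or_ge 1 (yy e p) with h5 | h5
  · have h6 := hdiff.unique (hd_rho_of_gt h5)
    rw [hd0] at h6
    linarith
  · rcases lt_or_ge (yy e p) (-1) with h7 | h7
    · have h6 := hdiff.unique (hd_rho_of_lt h7)
      rw [hd0] at h6
      linarith
    · have := rho_le h7 h5
      linarith

/-- the boundary of the room -/
lemma frontier_Om {e p : Euc n} (hp : p ∈ frontier (Om e)) :
    (Phi e p = 0 ∧ 0 < Gp e p ∧ 0 < Gm e p) ∨ (Phi e p < 0 ∧ Gp e p = 0 ∧ 0 < Gm e p) ∨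
      (Phi e p < 0 ∧ 0 < Gp e p ∧ Gm e p = 0) := by
  rw [(isOpen_Om e).frontier_eq] at hp
  obtain ⟨hc, hn⟩ := hp
  have c1 := (contDiff_Phi e).continuous
  have c2 := (contDiff_Gp e).continuous
  have c3 : Continuous (Gm e) := by
    have : Gm e = Gp (-e) := funext fun p => Gm_eq e p
    rw [this]; exact (contDiff_Gp (-e)).continuous
  have hcl : p ∈ {p | Phi e p ≤ 0 ∧ 0 ≤ Gp e p ∧ 0 ≤ Gm e p} := by
    refine closure_minimal ?_ ?_ hc
    · exact fun q hq => ⟨hq.1.le, hq.2.1.le, hq.2.2.le⟩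
    · exact (isClosed_le c1 continuous_const).inter
        ((isClosed_le continuous_const c2).inter (isClosed_le continuous_const c3))
  obtain ⟨h1, h2, h3⟩ := hcl
  rcases h1.eq_or_lt with h1' | h1'
  · exact Or.inl ⟨h1', gg_pos_of_phi (le_of_eq h1'.symm), gm_pos_of_phi (le_of_eq h1'.symm)⟩
  · right
    rcases h2.eq_or_lt with h2' | h2'
    · left
      refine ⟨h1', h2'.symm, ?_⟩
      -- then the height is at least `1/2`
      have h5 : ¬ yy e p < 1 / 2 := fun h => absurd h2' (ne_of_lt (gg_pos_of' h))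
      exact gg_pos_of' (by linarith [not_lt.1 h5])
    · right
      refine ⟨h1', h2', ?_⟩
      by_contra hne
      exact hn ⟨h1', h2', lt_of_le_of_ne h3 (Ne.symm hne)⟩

lemma defFun_Phi {e p : Euc n} (he : ‖e‖ = 1) (h : Phi e p = 0) : IsDefFun (Om e) p (Phi e) := by
  have c2 := (contDiff_Gp e).continuous
  have c3 : Continuous (Gm e) := by
    have : Gm e = Gp (-e) := funext fun p => Gm_eq e p
    rw [this]; exact (contDiff_Gp (-e)).continuous
  refine ⟨contDiff_Phi e, grad_Phi_ne he h, ?_⟩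
  filter_upwards [c2.continuousAt.eventually (lt_mem_nhds (gg_pos_of_phi (le_of_eq h.symm) : 0 < Gp e p)),
    c3.continuousAt.eventually (lt_mem_nhds (gm_pos_of_phi (le_of_eq h.symm) : 0 < Gm e p))]
    with q h1 h2
  exact ⟨fun hq => hq.1, fun hq => ⟨hq, h1, h2⟩⟩

lemma defFun_Gp {e p : Euc n} (he : ‖e‖ = 1) (h : Gp e p = 0) (h1 : Phi e p < 0)
    (h2 : 0 < Gm e p) : IsDefFun (Om e) p (fun q => -Gp e q) := by
  have c1 := (contDiff_Phi e).continuous
  have c3 : Continuous (Gm e) := by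
    have : Gm e = Gp (-e) := funext fun p => Gm_eq e p
    rw [this]; exact (contDiff_Gp (-e)).continuous
  refine ⟨(contDiff_Gp e).neg, ?_, ?_⟩
  · intro h0
    apply grad_Gp_ne he h
    have : gradient (fun q => -Gp e q) p = - gradient (Gp e) p := by
      unfold gradient
      rw [fderiv_fun_neg, map_neg]
    rw [this, neg_eq_zero] at h0
    exact h0
  · filter_upwards [c1.continuousAt.eventually (gt_mem_nhds h1),
      c3.continuousAt.eventually (lt_mem_nhds h2)] with q h3 h4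
    exact ⟨fun hq => by linarith [hq.2.1], fun hq => ⟨h3, by linarith, h4⟩⟩

lemma smooth_Om {e : Euc n} (he : ‖e‖ = 1) : ∀ x ∈ frontier (Om e), ∃ F, IsDefFun (Om e) x F := by
  intro x hx
  rcases frontier_Om hx with h | h | h
  · exact ⟨_, defFun_Phi he h.1⟩
  · exact ⟨_, defFun_Gp he h.2.1 h.1 h.2.2⟩
  · rw [← Om_neg]
    refine ⟨_, defFun_Gp (e := -e) (by rwa [norm_neg]) ?_ ?_ ?_⟩
    · rw [← Gm_eq]; exact h.2.2
    · rw [Phi_neg]; exact h.1
    · rw [Gm_eq, neg_neg]; exact h.2.1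

lemma bounded_Om {e : Euc n} (he : ‖e‖ = 1) : Bornology.IsBounded (Om e) := by
  refine (Metric.isBounded_closedBall (x := (0 : Euc n)) (r := 10)).subset fun p hp => ?_
  rw [mem_closedBall_zero_iff]
  obtain ⟨h1, -, -⟩ := hp
  have hs := ss_nonneg he p
  have hr := rho_nonneg (yy e p)
  have h4 : ‖p‖ ^ 2 = ss e p + yy e p ^ 2 := by unfold ss; ring
  unfold Phi phi at h1
  have h5 : yy e p ^ 2 ≤ 16 := by
    rcases lt_or_ge 1 (yy e p) with h5 | h5
    · rw [rho_of_ge h5.le] at h1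
      have : yy e p < 4 := by nlinarith
      nlinarith
    · rcases lt_or_ge (yy e p) (-1) with h7 | h7
      · rw [rho_of_le h7.le] at h1
        have : -4 < yy e p := by nlinarith
        nlinarith
      · nlinarith
  have h6 : ‖p‖ ^ 2 ≤ 10 ^ 2 := by nlinarith
  exact (abs_le_of_sq_le_sq' h6 (by norm_num)).2

end

end Pool.Agent.N237.Pen
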